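import Mathlib
import Pool.Agent.H635KT.Fin2

set_option autoImplicit false

/-!
# Connected `(k,t)`-regular graphs with `4 k ≤ 7 t + 8` are finite (MP_877e0f_co)

If `t ≥ 1` and `4 k ≤ 7 t + 8` then every connected `(k,t)`-regular graph is finite. So a pair
`(k,t)` that admits only infinite `(k,t)`-regular graphs has `t = 0` or `4 k > 7 t + 8`.
The bound is sharp for `t = 2` (the triangular lattice has `k = 6`) and for `t = 4` (the line graph
of the regular tree of degree `6` has `k = 10`).

Proof: let `x`, `y` be adjacent, `f` an integer valued function that changes by at most one along
edges and `f y = f x + 1`. Then the sum of `f` over the neighbours of `y` exceeds the one over the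
neighbours of `x` by at most `k - 1`: every common neighbour of `x` and `y` has as many neighbours
among the private neighbours of `x` as among those of `y`, and this bounds the number of extremal
values of `f`. Applied to the distance from a vertex this bounds the diameter by `2 k`.
-/

namespace Pool.Agent.Results.MP_877e0f_co.FiniteConnected

/-- A graph is `(k,t)`-regular if every vertex has exactly `k` neighbours and any two adjacent
vertices have exactly `t` common neighbours (every edge lies on exactly `t` triangles). -/
def IsKTRegular {V : Type} (G : SimpleGraph V) (k t : ℕ) : Prop :=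
  (∀ v, (G.neighborSet v).encard = k) ∧
    ∀ u v, G.Adj u v → (G.neighborSet u ∩ G.neighborSet v).encard = t

/-- **Theorem.** If `t ≥ 1` and `4 k ≤ 7 t + 8`, every connected `(k,t)`-regular graph is
finite. -/
theorem result (V : Type) (G : SimpleGraph V) (k t : ℕ) (hG : IsKTRegular G k t)
    (hc : G.Connected) (ht : 1 ≤ t) (h : 4 * k ≤ 7 * t + 8) : Finite V :=
  Pool.Agent.H635KT.Fin2.fin2 V G k t hG hc ht h

end Pool.Agent.Results.MP_877e0f_co.FiniteConnected
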