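import Mathlib

/-!
# Finite `(k, t)`-regular graphs of degree `k ≥ (1 + o(1)) t ^ (3 / 2)`

A graph is `(k, t)`-regular when every vertex has exactly `k` neighbours and every edge lies on exactly `t` triangles. If a
`(k, t)`-regular graph exists then `k t` is even. Here it is shown that if `k t` is even and `k` is at least
`(t + 1) (⌊√(t + 2)⌋ + 1 + 3 ⌊√(2 ⌊√(t + 2)⌋)⌋)` (or at least `3 (t + 1) ⌊√(t + 2)⌋`), then there is a finite `(k, t)`-regular
graph.

The graphs are Cartesian products of Johnson graphs `J (t + 2, m)`, which are `(m (t + 2 - m), t)`-regular, and possibly one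
cocktail party graph. Since `m (t + 2 - m) = m (t + 1) - m (m - 1)`, the question becomes to write an even number `E ≤ t + 2`
as a sum of numbers `m (m - 1)` with the sum of the numbers `m` as small as possible.
-/

set_option autoImplicit false

namespace Pool.Agent.Results.MP_877e0f_co.LargeDegree

open Finset

/-- `G` is `(k, t)`-regular: every vertex has exactly `k` neighbours and every edge lies on exactly `t` triangles. -/
def KTRegular {V : Type} (G : SimpleGraph V) (k t : ℕ) : Prop :=
  (∀ v, (G.neighborSet v).Finite ∧ (G.neighborSet v).ncard = k) ∧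
    ∀ u v, G.Adj u v → (G.neighborSet u ∩ G.neighborSet v).ncard = t

/-- there is a finite (nonempty) `(k, t)`-regular graph -/
def HasFinite (k t : ℕ) : Prop :=
  ∃ (V : Type) (_ : Finite V) (_ : Nonempty V) (G : SimpleGraph V), KTRegular G k t

/-! ### Cartesian products, Johnson graphs, cocktail party graphs -/

theorem HasFinite.zero (t : ℕ) : HasFinite 0 t :=
  ⟨Unit, inferInstance, inferInstance, ⊥, by
    constructor
    · intro v; simp
    · intro u v h; exact absurd h (by simp)⟩

theorem HasFinite.add {k l t : ℕ} (h1 : HasFinite k t) (h2 : HasFinite l t) : HasFinite (k + l) t := by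
  classical
  obtain ⟨V, _, _, G, hG⟩ := h1
  obtain ⟨W, _, _, H, hH⟩ := h2
  refine ⟨V × W, inferInstance, inferInstance, G □ H, ?_⟩
  have inj1 : ∀ b : W, Function.Injective (fun x : V => (x, b)) := fun b x y h => (Prod.ext_iff.1 h).1
  have inj2 : ∀ a : V, Function.Injective (fun y : W => (a, y)) := fun a x y h => (Prod.ext_iff.1 h).2
  constructor
  · rintro ⟨a, b⟩
    refine ⟨Set.toFinite _, ?_⟩
    have e : (G □ H).neighborSet (a, b) = (fun x : V => (x, b)) '' G.neighborSet a ∪ (fun y : W => (a, y)) '' H.neighborSet b := by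
      ext ⟨x, y⟩
      simp only [SimpleGraph.mem_neighborSet, SimpleGraph.boxProd_adj, Set.mem_union, Set.mem_image, Prod.mk.injEq]
      constructor
      · rintro (⟨h, rfl⟩ | ⟨h, rfl⟩)
        · exact Or.inl ⟨x, h, rfl, rfl⟩
        · exact Or.inr ⟨y, h, rfl, rfl⟩
      · rintro (⟨x', h, rfl, rfl⟩ | ⟨y', h, rfl, rfl⟩)
        · exact Or.inl ⟨h, rfl⟩
        · exact Or.inr ⟨h, rfl⟩
    rw [e, Set.ncard_union_eq _ (Set.toFinite _) (Set.toFinite _), Set.ncard_image_of_injective _ (inj1 b),
      Set.ncard_image_of_injective _ (inj2 a), (hG.1 a).2, (hH.1 b).2]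
    rw [Set.disjoint_left]
    rintro _ ⟨x, hx, rfl⟩ ⟨y, hy, h⟩
    have : a = x := (Prod.ext_iff.1 h).1
    rw [← this] at hx
    exact G.irrefl hx
  · rintro ⟨a, b⟩ ⟨a', b'⟩ hadj
    rw [SimpleGraph.boxProd_adj] at hadj
    rcases hadj with ⟨h, hb⟩ | ⟨h, ha⟩
    · simp only at h hb
      subst hb
      have e : (G □ H).neighborSet (a, b) ∩ (G □ H).neighborSet (a', b) =
          (fun x : V => (x, b)) '' (G.neighborSet a ∩ G.neighborSet a') := by
        ext ⟨x, y⟩
        simp only [SimpleGraph.mem_neighborSet, SimpleGraph.boxProd_adj, Set.mem_inter_iff, Set.mem_image, Prod.mk.injEq]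
        constructor
        · rintro ⟨h1 | h1, h2 | h2⟩
          · exact ⟨x, ⟨h1.1, h2.1⟩, rfl, h1.2⟩
          · exact absurd h2.1 (by rw [← h1.2]; exact H.irrefl)
          · exact absurd h1.1 (by rw [← h2.2]; exact H.irrefl)
          · exact absurd h (by rw [h1.2, h2.2]; exact G.irrefl)
        · rintro ⟨x', ⟨h1, h2⟩, rfl, rfl⟩
          exact ⟨Or.inl ⟨h1, rfl⟩, Or.inl ⟨h2, rfl⟩⟩
      rw [e, Set.ncard_image_of_injective _ (inj1 b), hG.2 _ _ h]
    · simp only at h ha
      subst ha
      have e : (G □ H).neighborSet (a, b) ∩ (G □ H).neighborSet (a, b') =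
          (fun y : W => (a, y)) '' (H.neighborSet b ∩ H.neighborSet b') := by
        ext ⟨x, y⟩
        simp only [SimpleGraph.mem_neighborSet, SimpleGraph.boxProd_adj, Set.mem_inter_iff, Set.mem_image, Prod.mk.injEq]
        constructor
        · rintro ⟨h1 | h1, h2 | h2⟩
          · exact absurd h (by rw [h1.2, h2.2]; exact H.irrefl)
          · exact absurd h1.1 (by rw [← h2.2]; exact G.irrefl)
          · exact absurd h2.1 (by rw [← h1.2]; exact G.irrefl)
          · exact ⟨y, ⟨h1.1, h2.1⟩, h1.2, rfl⟩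
        · rintro ⟨x', ⟨h1, h2⟩, rfl, rfl⟩
          exact ⟨Or.inr ⟨h1, rfl⟩, Or.inr ⟨h2, rfl⟩⟩
      rw [e, Set.ncard_image_of_injective _ (inj2 a), hH.2 _ _ h]

theorem HasFinite.mul {k t : ℕ} (h : HasFinite k t) (a : ℕ) : HasFinite (a * k) t := by
  induction a with
  | zero => simpa using HasFinite.zero t
  | succ a ih => rw [Nat.succ_mul]; exact ih.add h

/-- the Johnson graph -/
def johnson (n m : ℕ) : SimpleGraph {A : Finset (Fin n) // A.card = m} where
  Adj A B := (A.1 \ B.1).card = 1
  symm := ⟨by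
    intro A B h
    rw [card_sdiff_comm (B.2.trans A.2.symm)]
    exact h⟩
  loopless := ⟨by intro A h; simp at h⟩

theorem sdiff_move {n : ℕ} {A : Finset (Fin n)} {x y : Fin n} (hx : x ∈ A) (hy : y ∉ A) :
    A \ (insert y (A.erase x)) = {x} := by
  ext z
  simp only [mem_sdiff, mem_insert, mem_erase, mem_singleton, not_or, not_and]
  constructor
  · rintro ⟨h1, h2, h3⟩
    by_contra hz
    exact (h3 hz) h1
  · rintro rfl
    exact ⟨hx, fun h => hy (h ▸ hx), fun h => absurd rfl h⟩

theorem exists_move {n : ℕ} {A B : Finset (Fin n)} (hc : A.card = B.card) (h : (A \ B).card = 1) :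
    ∃ x ∈ A, ∃ y ∉ A, B = insert y (A.erase x) := by
  have h' : (B \ A).card = 1 := by rw [card_sdiff_comm hc.symm]; exact h
  obtain ⟨x, hx⟩ := card_eq_one.1 h
  obtain ⟨y, hy⟩ := card_eq_one.1 h'
  have hx' : ∀ z, (z ∈ A ∧ z ∉ B) ↔ z = x := fun z => by rw [← mem_sdiff, hx, mem_singleton]
  have hy' : ∀ z, (z ∈ B ∧ z ∉ A) ↔ z = y := fun z => by rw [← mem_sdiff, hy, mem_singleton]
  refine ⟨x, ((hx' x).2 rfl).1, y, ((hy' y).2 rfl).2, ?_⟩
  ext z
  rw [mem_insert, mem_erase]
  have a1 := hx' z
  have a2 := hy' z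
  tauto

theorem move_inj {n : ℕ} {A : Finset (Fin n)} {x y x' y' : Fin n} (hx : x ∈ A) (hy : y ∉ A) (hx' : x' ∈ A) (hy' : y' ∉ A)
    (h : insert y (A.erase x) = insert y' (A.erase x')) : x = x' ∧ y = y' := by
  constructor
  · have h1 := sdiff_move hx hy
    rw [h, sdiff_move hx' hy', singleton_inj] at h1
    exact h1.symm
  · have h1 : y ∈ insert y' (A.erase x') := h ▸ mem_insert_self _ _
    rcases mem_insert.1 h1 with h1 | h1
    · exact h1
    · exact absurd (mem_of_mem_erase h1) hy

theorem card_move {n m : ℕ} {A : Finset (Fin n)} (hA : A.card = m) {x y : Fin n} (hx : x ∈ A) (hy : y ∉ A) :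
    (insert y (A.erase x)).card = m := by
  rw [card_insert_of_notMem (fun h => hy (mem_of_mem_erase h)), card_erase_of_mem hx, hA]
  have : 0 < A.card := card_pos.2 ⟨x, hx⟩
  omega

theorem johnson_regular (n m : ℕ) : KTRegular (johnson n m) (m * (n - m)) (n - 2) := by
  classical
  constructor
  · rintro ⟨A, hA⟩
    refine ⟨Set.toFinite _, ?_⟩
    rw [← Set.ncard_image_of_injective _ Subtype.val_injective]
    have e : Subtype.val '' (johnson n m).neighborSet ⟨A, hA⟩ =
        (fun p : Fin n × Fin n => insert p.2 (A.erase p.1)) '' (((A ×ˢ Aᶜ : Finset (Fin n × Fin n))) : Set (Fin n × Fin n)) := by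
      ext B
      simp only [Set.mem_image, SimpleGraph.mem_neighborSet, johnson, Subtype.exists, exists_and_right, exists_eq_right,
        mem_coe, mem_product, mem_compl, Prod.exists]
      constructor
      · rintro ⟨hB, h⟩
        obtain ⟨x, hx, y, hy, rfl⟩ := exists_move (hA.trans hB.symm) h
        exact ⟨x, y, ⟨hx, hy⟩, rfl⟩
      · rintro ⟨x, y, ⟨hx, hy⟩, rfl⟩
        exact ⟨card_move hA hx hy, by rw [sdiff_move hx hy, card_singleton]⟩
    rw [e, Set.ncard_image_of_injOn, Set.ncard_coe_finset, card_product, card_compl, Fintype.card_fin, hA]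
    rintro ⟨x, y⟩ hp ⟨x', y'⟩ hq h
    rw [mem_coe, mem_product, mem_compl] at hp hq
    obtain ⟨h1, h2⟩ := move_inj hp.1 hp.2 hq.1 hq.2 h
    exact Prod.ext h1 h2
  · rintro ⟨A, hA⟩ ⟨B, hB⟩ hadj
    obtain ⟨x, hx, y, hy, rfl⟩ := exists_move (hA.trans hB.symm) hadj
    have hxy : x ≠ y := fun h => hy (h ▸ hx)
    rw [← Set.ncard_image_of_injective _ Subtype.val_injective]
    have e : Subtype.val '' ((johnson n m).neighborSet ⟨A, hA⟩ ∩ (johnson n m).neighborSet ⟨insert y (A.erase x), hB⟩) =
        (fun p : Fin n × Fin n => insert p.2 (A.erase p.1)) ''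
          (((({x} : Finset (Fin n)) ×ˢ (Aᶜ.erase y)) ∪ ((A.erase x) ×ˢ ({y} : Finset (Fin n))) : Finset (Fin n × Fin n)) :
            Set (Fin n × Fin n)) := by
      ext C
      constructor
      · rintro ⟨⟨C', hC⟩, ⟨h1, h2⟩, rfl⟩
        replace h1 : (A \ C').card = 1 := h1
        replace h2 : ((insert y (A.erase x)) \ C').card = 1 := h2
        obtain ⟨w, hw, z, hz, rfl⟩ := exists_move (hA.trans hC.symm) h1
        refine ⟨(w, z), ?_, rfl⟩
        rw [mem_coe, mem_union, mem_product, mem_product]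
        simp only [mem_compl, mem_singleton, mem_erase]
        by_cases hwx : w = x
        · subst hwx
          by_cases hzy : z = y
          · subst hzy
            simp at h2
          · exact Or.inl ⟨rfl, hzy, hz⟩
        · by_cases hzy : z = y
          · exact Or.inr ⟨⟨hwx, hw⟩, hzy⟩
          · exfalso
            obtain ⟨u, hu⟩ := card_eq_one.1 h2
            have e1 : w ∈ (insert y (A.erase x)) \ (insert z (A.erase w)) := by
              simp only [mem_sdiff, mem_insert, mem_erase, not_or, not_and]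
              exact ⟨Or.inr ⟨hwx, hw⟩, fun h => hz (h ▸ hw), fun h => absurd rfl h⟩
            have e2 : y ∈ (insert y (A.erase x)) \ (insert z (A.erase w)) := by
              simp only [mem_sdiff, mem_insert, mem_erase, not_or, not_and, true_or, true_and]
              exact ⟨fun h => hzy h.symm, fun _ => hy⟩
            rw [hu, mem_singleton] at e1 e2
            exact hy (e2.trans e1.symm ▸ hw)
      · rintro ⟨⟨w, z⟩, hp, rfl⟩
        rw [mem_coe, mem_union, mem_product, mem_product] at hp
        simp only [mem_compl, mem_singleton, mem_erase] at hp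
        rcases hp with ⟨hwx, hzy, hz⟩ | ⟨⟨hwx, hw⟩, hzy⟩
        · subst hwx
          refine ⟨⟨_, card_move hA hx hz⟩, ⟨?_, ?_⟩, rfl⟩
          · change (A \ (insert z (A.erase w))).card = 1
            rw [sdiff_move hx hz, card_singleton]
          · change ((insert y (A.erase w)) \ (insert z (A.erase w))).card = 1
            have : (insert y (A.erase w)) \ (insert z (A.erase w)) = {y} := by
              ext u
              simp only [mem_sdiff, mem_insert, mem_erase, not_or, not_and, mem_singleton]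
              constructor
              · rintro ⟨h1 | h1, h2, h3⟩
                · exact h1
                · exact absurd h1.2 (h3 h1.1)
              · rintro rfl
                exact ⟨Or.inl rfl, fun h => hzy h.symm, fun _ => hy⟩
            rw [this, card_singleton]
        · subst hzy
          refine ⟨⟨_, card_move hA hw hy⟩, ⟨?_, ?_⟩, rfl⟩
          · change (A \ (insert z (A.erase w))).card = 1
            rw [sdiff_move hw hy, card_singleton]
          · change ((insert z (A.erase x)) \ (insert z (A.erase w))).card = 1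
            have : (insert z (A.erase x)) \ (insert z (A.erase w)) = {w} := by
              ext u
              simp only [mem_sdiff, mem_insert, mem_erase, not_or, not_and, mem_singleton]
              constructor
              · rintro ⟨h1 | h1, h2, h3⟩
                · exact absurd h1 h2
                · by_contra hu
                  exact h3 hu h1.2
              · rintro rfl
                exact ⟨Or.inr ⟨hwx, hw⟩, fun h => hy (h ▸ hw), fun h => absurd rfl h⟩
            rw [this, card_singleton]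
    have hxA : 0 < A.card := card_pos.2 ⟨x, hx⟩
    have hyA : 0 < (Aᶜ).card := card_pos.2 ⟨y, mem_compl.2 hy⟩
    have hdisj : Disjoint ((({x} : Finset (Fin n)) ×ˢ (Aᶜ.erase y))) ((A.erase x) ×ˢ ({y} : Finset (Fin n))) := by
      rw [Finset.disjoint_left]
      rintro ⟨w, z⟩ h1 h2
      rw [mem_product, mem_singleton] at h1
      rw [mem_product] at h2
      exact (mem_erase.1 h2.1).1 h1.1
    rw [e, Set.ncard_image_of_injOn, Set.ncard_coe_finset, card_union_of_disjoint hdisj, card_product, card_product,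
      card_singleton, card_singleton, card_erase_of_mem (mem_compl.2 hy), card_erase_of_mem hx]
    · rw [card_compl, Fintype.card_fin] at hyA ⊢
      omega
    · rintro ⟨w, z⟩ hp ⟨w', z'⟩ hq h
      have q : ∀ w z : Fin n, (w, z) ∈ (((({x} : Finset (Fin n)) ×ˢ (Aᶜ.erase y)) ∪ ((A.erase x) ×ˢ ({y} : Finset (Fin n))) :
          Finset (Fin n × Fin n)) : Set (Fin n × Fin n)) → w ∈ A ∧ z ∉ A := by
        intro w z hh
        simp only [mem_coe, mem_union, mem_product, mem_compl, mem_singleton, mem_erase] at hh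
        rcases hh with ⟨rfl, -, hz⟩ | ⟨⟨-, hw⟩, rfl⟩
        · exact ⟨hx, hz⟩
        · exact ⟨hw, hy⟩
      obtain ⟨h1, h2⟩ := move_inj (q w z hp).1 (q w z hp).2 (q w' z' hq).1 (q w' z' hq).2 h
      exact Prod.ext h1 h2

theorem HasFinite.johnson {m u t : ℕ} (h : m + u = t + 2) : HasFinite (m * u) t := by
  have h1 := johnson_regular (t + 2) m
  have e1 : t + 2 - m = u := by omega
  rw [e1] at h1
  have hne : Nonempty {A : Finset (Fin (t + 2)) // A.card = m} := by
    obtain ⟨S, -, hS⟩ := exists_subset_card_eq (s := (univ : Finset (Fin (t + 2)))) (n := m) (by simp; omega)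
    exact ⟨⟨S, hS⟩⟩
  exact ⟨_, inferInstance, hne, _, h1⟩

/-- the cocktail party graph -/
theorem HasFinite.cocktail (s : ℕ) : HasFinite (2 * s + 2) (2 * s) := by
  classical
  let G : SimpleGraph (Fin (s + 2) × Fin 2) :=
    { Adj := fun p q => p.1 ≠ q.1
      symm := ⟨fun p q h => Ne.symm h⟩
      loopless := ⟨fun p h => h rfl⟩ }
  refine ⟨Fin (s + 2) × Fin 2, inferInstance, inferInstance, G, ?_, ?_⟩
  · rintro p
    refine ⟨Set.toFinite _, ?_⟩
    have e : G.neighborSet p = (((({p.1} : Finset (Fin (s + 2)))ᶜ ×ˢ (univ : Finset (Fin 2)) : Finset _)) : Set _) := by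
      ext q
      simp [G, eq_comm]
    rw [e, Set.ncard_coe_finset, card_product, card_compl, card_singleton, Fintype.card_fin, card_univ, Fintype.card_fin]
    omega
  · intro p q hpq
    have e : G.neighborSet p ∩ G.neighborSet q =
        (((({p.1, q.1} : Finset (Fin (s + 2)))ᶜ ×ˢ (univ : Finset (Fin 2)) : Finset _)) : Set _) := by
      ext r
      simp [G, eq_comm]
      tauto
    rw [e, Set.ncard_coe_finset, card_product, card_compl, card_pair hpq, Fintype.card_fin, card_univ, Fintype.card_fin]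
    omega

/-- there is a finite `(c (t + 1) - E, t)`-regular graph -/
def Def (t c E : ℕ) : Prop := ∃ k, k + E = c * (t + 1) ∧ HasFinite k t

theorem Def.add {t c E c' E' : ℕ} (h : Def t c E) (h' : Def t c' E') : Def t (c + c') (E + E') := by
  obtain ⟨k, hk, hf⟩ := h
  obtain ⟨k', hk', hf'⟩ := h'
  refine ⟨k + k', ?_, hf.add hf'⟩
  rw [add_mul, ← hk, ← hk']
  omega

theorem Def.zero (t : ℕ) : Def t 0 0 := ⟨0, by simp, HasFinite.zero t⟩

theorem Def.johnson {t m E : ℕ} (hm : m ≤ t + 2) (hE : E + m = m * m) : Def t m E := by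
  obtain ⟨u, hu⟩ : ∃ u, m + u = t + 2 := ⟨t + 2 - m, by omega⟩
  refine ⟨m * u, ?_, HasFinite.johnson hu⟩
  have e1 : m * m + m * u = m * (t + 2) := by rw [← mul_add, hu]
  have e2 : m * (t + 2) = m * (t + 1) + m := by ring
  omega

theorem Def.units (t c : ℕ) : Def t c 0 := by
  induction c with
  | zero => exact Def.zero t
  | succ c ih => exact ih.add (Def.johnson (m := 1) (E := 0) (by omega) (by norm_num))

theorem Def.mono {t c c' E : ℕ} (h : Def t c E) (hc : c ≤ c') : Def t c' E := by
  obtain ⟨d, rfl⟩ := Nat.exists_eq_add_of_le hc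
  exact h.add (Def.units t d)

theorem Def.pairs (t q : ℕ) : Def t (2 * q) (2 * q) := by
  induction q with
  | zero => exact Def.zero t
  | succ q ih => exact ih.add (Def.johnson (m := 2) (E := 2) (by omega) (by norm_num))

/-- one step of the greedy algorithm: `E = m (m - 1) + R` with `m ≤ √E + 1` and `R ≤ 2 √E` -/
theorem greedy {E : ℕ} (hE : Even E) :
    ∃ m F q : ℕ, F + m = m * m ∧ E = F + 2 * q ∧
      ((m = Nat.sqrt E ∧ 2 * q ≤ 2 * Nat.sqrt E - 1) ∨ (m = Nat.sqrt E + 1 ∧ 2 * q ≤ Nat.sqrt E ∧ 0 < Nat.sqrt E)) := by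
  set s := Nat.sqrt E with hs
  have hs1 : s * s ≤ E := Nat.sqrt_le E
  have hs2 : E ≤ s * s + s + s := Nat.sqrt_le_add E
  have hev : Even (s * s + s) := by
    have := Nat.even_mul_succ_self s
    rwa [Nat.mul_succ] at this
  by_cases h : s * s + s ≤ E ∧ 0 < s
  · refine ⟨s + 1, s * s + s, (E - (s * s + s)) / 2, by ring, ?_, Or.inr ⟨rfl, ?_, h.2⟩⟩
    · obtain ⟨a, ha⟩ := hev
      obtain ⟨b, hb⟩ := hE
      omega
    · omega
  · rcases Nat.eq_zero_or_pos s with h0 | h0
    · rw [h0] at hs1 hs2 ⊢
      refine ⟨0, 0, 0, rfl, ?_, Or.inl ⟨rfl, ?_⟩⟩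
      · omega
      · omega
    · have h1 : E < s * s + s := by
        by_contra hh
        exact h ⟨by omega, h0⟩
      have h2 : s ≤ s * s := Nat.le_mul_of_pos_left s h0
      refine ⟨s, s * s - s, (E - (s * s - s)) / 2, by omega, ?_, Or.inl ⟨rfl, ?_⟩⟩
      · obtain ⟨a, ha⟩ := hev
        obtain ⟨b, hb⟩ := hE
        omega
      · omega

theorem greedy_le {E m t : ℕ} (hEt : E ≤ t + 2) (h : m = Nat.sqrt E ∨ (m = Nat.sqrt E + 1 ∧ 0 < Nat.sqrt E ∧ m * m ≤ E + m)) :
    m ≤ t + 2 := by
  rcases h with h | ⟨h, h0, h1⟩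
  · exact h.trans_le ((Nat.sqrt_le_self E).trans hEt)
  · have h2 : m * 2 ≤ m * m := Nat.mul_le_mul_left _ (by omega)
    omega

/-- first bound -/
theorem level1 {t E : ℕ} (hE : Even E) (hEt : E ≤ t + 2) : Def t (3 * Nat.sqrt E) E := by
  obtain ⟨m, F, q, h1, h2, h3⟩ := greedy hE
  have hm : m ≤ t + 2 := by
    apply greedy_le hEt
    rcases h3 with h3 | h3
    · exact Or.inl h3.1
    · exact Or.inr ⟨h3.1, h3.2.2, by omega⟩
  have h4 := (Def.johnson hm h1).add (Def.pairs t q)
  rw [← h2] at h4
  refine h4.mono ?_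
  omega

/-- second bound -/
theorem level2 {t E : ℕ} (hE : Even E) (hEt : E ≤ t + 2) :
    Def t (Nat.sqrt E + 1 + 3 * Nat.sqrt (2 * Nat.sqrt E)) E := by
  obtain ⟨m, F, q, h1, h2, h3⟩ := greedy hE
  have hm : m ≤ t + 2 := by
    apply greedy_le hEt
    rcases h3 with h3 | h3
    · exact Or.inl h3.1
    · exact Or.inr ⟨h3.1, h3.2.2, by omega⟩
  have h4 := (Def.johnson hm h1).add (level1 (t := t) (E := 2 * q) ⟨q, by ring⟩ (by omega))
  rw [← h2] at h4
  have h5 : Nat.sqrt (2 * q) ≤ Nat.sqrt (2 * Nat.sqrt E) := Nat.sqrt_le_sqrt (by omega)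
  refine h4.mono ?_
  omega

/-- the number of units of size `t + 1` which suffices -/
def bound (t : ℕ) : ℕ := min (3 * Nat.sqrt (t + 2)) (Nat.sqrt (t + 2) + 1 + 3 * Nat.sqrt (2 * Nat.sqrt (t + 2)))

theorem level {t E : ℕ} (hE : Even E) (hEt : E ≤ t + 2) : Def t (bound t) E := by
  have hst : Nat.sqrt E ≤ Nat.sqrt (t + 2) := Nat.sqrt_le_sqrt hEt
  have h5 : Nat.sqrt (2 * Nat.sqrt E) ≤ Nat.sqrt (2 * Nat.sqrt (t + 2)) := Nat.sqrt_le_sqrt (by omega)
  rcases min_choice (3 * Nat.sqrt (t + 2)) (Nat.sqrt (t + 2) + 1 + 3 * Nat.sqrt (2 * Nat.sqrt (t + 2))) with h | h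
  · rw [bound, h]
    exact (level1 hE hEt).mono (by omega)
  · rw [bound, h]
    exact (level2 hE hEt).mono (by omega)

theorem small_defect {t k E b : ℕ} (hE : Even E) (hEt : E ≤ t + 2) (hk : k + E = b * (t + 1)) (hb : bound t ≤ b) :
    HasFinite k t := by
  obtain ⟨k', hk', hf⟩ := (level hE hEt).mono hb
  have : k = k' := by omega
  rwa [this]

theorem bound_pos (t : ℕ) : 1 ≤ bound t := by
  have h7 : 1 ≤ Nat.sqrt (t + 2) := by
    rw [Nat.le_sqrt]; omega
  unfold bound
  rw [le_min_iff]
  omega

/-- If `k t` is even and `k ≥ (t + 1) * min (3 ⌊√(t + 2)⌋) (⌊√(t + 2)⌋ + 1 + 3 ⌊√(2 ⌊√(t + 2)⌋)⌋)`, then there is a finite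
nonempty graph in which every vertex has exactly `k` neighbours and every edge lies on exactly `t` triangles. -/
theorem result (k t : ℕ) (h2 : Even (k * t))
    (h : (t + 1) * min (3 * Nat.sqrt (t + 2)) (Nat.sqrt (t + 2) + 1 + 3 * Nat.sqrt (2 * Nat.sqrt (t + 2))) ≤ k) :
    HasFinite k t := by
  change (t + 1) * bound t ≤ k at h
  set n := t + 1 with hn
  have hn0 : 0 < n := by omega
  set a := k / n with ha
  have hk : n * a + k % n = k := Nat.div_add_mod k n
  have hr : k % n < n := Nat.mod_lt _ hn0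
  have hab : bound t ≤ a := by
    rw [ha, Nat.le_div_iff_mul_le hn0, mul_comm]
    exact h
  obtain ⟨E, hE⟩ : ∃ E, k % n + E = n := ⟨n - k % n, by omega⟩
  have hkE : k + E = (a + 1) * n := by
    have : (a + 1) * n = n * a + n := by ring
    omega
  rcases Nat.even_or_odd E with he | ho
  · exact small_defect he (by omega) hkE (by omega)
  · -- then `t` is even
    have ht : Even t := by
      by_contra hto
      have hto' : Odd t := Nat.not_even_iff_odd.1 hto
      have hke : Even k := by
        rcases Nat.even_mul.1 h2 with h | h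
        · exact h
        · exact absurd h hto
      have hne : Even n := hto'.add_one
      have h6 : Even (k + E) := hkE ▸ (hne.mul_left _)
      rw [Nat.even_add] at h6
      exact (Nat.not_even_iff_odd.2 ho) (h6.1 hke)
    obtain ⟨s, hs⟩ := ht
    have hc : HasFinite (t + 2) t := by
      have := HasFinite.cocktail s
      have e1 : 2 * s = t := by omega
      rwa [e1] at this
    rcases Nat.lt_or_ge k (t + 2) with hkt | hkt
    · -- then `k = t + 1`
      have h8 : n * 1 ≤ n * bound t := Nat.mul_le_mul_left _ (bound_pos t)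
      have h9 : k = 1 * (t + 1) := by omega
      rw [h9]
      exact HasFinite.johnson (by omega)
    · obtain ⟨k', hk'⟩ : ∃ k', k = k' + (t + 2) := ⟨k - (t + 2), by omega⟩
      have h9 : HasFinite k' t := by
        refine small_defect (E := E + 1) (b := a) ho.add_one (by omega) ?_ hab
        have h10 : (a + 1) * n = a * n + n := by ring
        have h11 : k' + (t + 2) + E = a * n + n := by rw [← hk', hkE, h10]
        have h12 : k' + (E + 1) = a * n := by omega
        exact h12
      rw [hk']
      exact h9.add hc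

end Pool.Agent.Results.MP_877e0f_co.LargeDegree
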